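import Mathlib

-- part MP_f88521_co.Trees
section

/-! Trees of diameter at most three are exactly the trees with a dominating edge. -/

namespace Pool.Agent.MP_f88521_co

open SimpleGraph

theorem path_length_le {V : Type*} {T : SimpleGraph V} (hT : T.IsTree) (hd : T.ediam ≤ 3)
    {u v : V} (p : T.Walk u v) (hp : p.IsPath) : p.length ≤ 3 := by
  obtain ⟨q, hq, hql⟩ := hT.connected.exists_path_of_dist u v
  have hpq : p = q :=
    Subtype.mk.inj <| (hT.isAcyclic.subsingleton_path u v).elim ⟨p, hp⟩ ⟨q, hq⟩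
  have h1 : T.edist u v ≤ 3 := le_trans edist_le_ediam hd
  have h2 : (T.dist u v : ℕ∞) = T.edist u v := (hT.connected u v).coe_dist_eq_edist
  rw [hpq, hql]
  rw [← h2] at h1
  exact_mod_cast h1

theorem no_triangle {V : Type*} {T : SimpleGraph V} (hT : T.IsTree) {a b c : V}
    (hab : T.Adj a b) (hbc : T.Adj b c) (hac : T.Adj a c) : False := by
  have h := hT.isAcyclic.cliqueFree (n := 3) le_rfl
  classical
  exact h {a, b, c} (is3Clique_triple_iff.2 ⟨hab, hac, hbc⟩)

theorem no_P5 {V : Type*} {T : SimpleGraph V} (hT : T.IsTree) (hd : T.ediam ≤ 3) {a b c d e : V}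
    (hab : T.Adj a b) (hbc : T.Adj b c) (hcd : T.Adj c d) (hde : T.Adj d e)
    (hac : a ≠ c) (had : a ≠ d) (hae : a ≠ e) (hbd : b ≠ d) (hbe : b ≠ e) (hce : c ≠ e) : False := by
  have := path_length_le hT hd (Walk.cons hab (Walk.cons hbc (Walk.cons hcd (Walk.cons hde Walk.nil))))
    (by
      simp [Walk.cons_isPath_iff, hab.ne, hbc.ne, hcd.ne, hde.ne, hac, had, hae, hbd, hbe, hce])
  simp at this

theorem near {V : Type*} {T : SimpleGraph V} (hT : T.IsTree) (hd : T.ediam ≤ 3) (u v : V) :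
    u = v ∨ T.Adj u v ∨ (∃ w, T.Adj u w ∧ T.Adj w v) ∨
      (∃ w₁ w₂, T.Adj u w₁ ∧ T.Adj w₁ w₂ ∧ T.Adj w₂ v) := by
  obtain ⟨q, hq, -⟩ := hT.connected.exists_path_of_dist u v
  have := path_length_le hT hd q hq
  match q, this with
  | .nil, _ => exact Or.inl rfl
  | .cons h .nil, _ => exact Or.inr (Or.inl h)
  | .cons h (.cons h' .nil), _ => exact Or.inr (Or.inr (Or.inl ⟨_, h, h'⟩))
  | .cons h (.cons h' (.cons h'' .nil)), _ => exact Or.inr (Or.inr (Or.inr ⟨_, _, h, h', h''⟩))
  | .cons _ (.cons _ (.cons _ (.cons _ _))), hl => simp at hl; omega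

theorem exists_dominating_edge {V : Type*} [Nontrivial V] {T : SimpleGraph V} (hT : T.IsTree)
    (hd : T.ediam ≤ 3) : ∃ x y, T.Adj x y ∧ ∀ z, T.Adj x z ∨ T.Adj y z := by
  by_cases h4 : ∃ a x y b, T.Adj a x ∧ T.Adj x y ∧ T.Adj y b ∧ a ≠ y ∧ x ≠ b
  · obtain ⟨a, x, y, b, hax, hxy, hyb, hay, hxb⟩ := h4
    refine ⟨x, y, hxy, fun z => ?_⟩
    by_contra hz
    rw [not_or] at hz
    obtain ⟨hz1, hz2⟩ := hz
    have hzx : z ≠ x := by rintro rfl; exact hz2 hxy.symm
    have hzy : z ≠ y := by rintro rfl; exact hz1 hxy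
    have hzb : z ≠ b := by rintro rfl; exact hz2 hyb
    have hza : z ≠ a := by rintro rfl; exact hz1 hax.symm
    rcases near hT hd z x with h | h | ⟨w, h1, h2⟩ | ⟨w₁, w₂, h1, h2, h3⟩
    · exact hzx h
    · exact hz1 h.symm
    · have hwy : w ≠ y := by rintro rfl; exact hz2 h1.symm
      have hwb : w ≠ b := by rintro rfl; exact no_triangle hT hxy hyb h2.symm
      exact no_P5 hT hd h1 h2 hxy hyb hzx hzy hzb hwy hwb hxb
    · have hw1x : w₁ ≠ x := by rintro rfl; exact hz1 h1.symm
      have hw1y : w₁ ≠ y := by rintro rfl; exact hz2 h1.symm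
      have hzw2 : z ≠ w₂ := by rintro rfl; exact hz1 h3.symm
      by_cases hw2 : w₂ = y
      · subst hw2
        have hw1a : w₁ ≠ a := by rintro rfl; exact no_triangle hT hax hxy h2
        exact no_P5 hT hd h1 h2 h3 hax.symm hzw2 hzx hza hw1x hw1a hay.symm
      · exact no_P5 hT hd h1 h2 h3 hxy hzw2 hzx hzy hw1x hw1y hw2
  · by_cases h3 : ∃ a x b, T.Adj a x ∧ T.Adj x b ∧ a ≠ b
    · obtain ⟨a, x, b, hax, hxb, hab⟩ := h3
      refine ⟨x, a, hax.symm, fun z => ?_⟩
      by_contra hz
      rw [not_or] at hz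
      obtain ⟨hz1, hz2⟩ := hz
      have hzx : z ≠ x := by rintro rfl; exact hz2 hax
      rcases near hT hd z x with h | h | ⟨w, h1, h2⟩ | ⟨w₁, w₂, h1, h2, h3⟩
      · exact hzx h
      · exact hz1 h.symm
      · by_cases hw : w = a
        · subst hw
          exact h4 ⟨z, w, x, b, h1, h2, hxb, hzx, hab⟩
        · exact h4 ⟨z, w, x, a, h1, h2, hax.symm, hzx, hw⟩
      · have hw1x : w₁ ≠ x := by rintro rfl; exact hz1 h1.symm
        have hzw2 : z ≠ w₂ := by rintro rfl; exact hz1 h3.symm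
        exact h4 ⟨z, w₁, w₂, x, h1, h2, h3, hzw2, hw1x⟩
    · obtain ⟨u, v, huv⟩ := exists_pair_ne V
      have : ∃ x y, T.Adj x y := by
        rcases near hT hd u v with h | h | ⟨w, h1, -⟩ | ⟨w₁, w₂, h1, -⟩
        · exact absurd h huv
        · exact ⟨_, _, h⟩
        · exact ⟨_, _, h1⟩
        · exact ⟨_, _, h1⟩
      obtain ⟨x, y, hxy⟩ := this
      refine ⟨x, y, hxy, fun z => ?_⟩
      rcases near hT hd z x with h | h | ⟨w, h1, h2⟩ | ⟨w₁, w₂, h1, h2, h5⟩
      · subst h; exact Or.inr hxy.symm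
      · exact Or.inl h.symm
      · by_cases hzx : z = x
        · subst hzx; exact Or.inr hxy.symm
        · exact absurd ⟨z, w, x, h1, h2, hzx⟩ h3
      · by_cases hzw : z = w₂
        · subst hzw; exact Or.inl h5.symm
        · exact absurd ⟨z, w₁, w₂, h1, h2, hzw⟩ h3

/-- A graph with a dominating edge has a spanning tree of diameter at most three. -/
theorem exists_tree_of_dominating {V : Type*} [Finite V] (H : SimpleGraph V) (x y : V)
    (hxy : H.Adj x y) (hdom : ∀ z, H.Adj x z ∨ H.Adj y z) :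
    ∃ T : SimpleGraph V, T.IsTree ∧ T.ediam ≤ 3 ∧ T ≤ H := by
  classical
  have := Fintype.ofFinite V
  let p : V → V := fun z => if H.Adj x z then x else y
  let T : SimpleGraph V := SimpleGraph.fromRel fun u v => u ≠ x ∧ v = p u
  have hpadj : ∀ u, H.Adj (p u) u := by
    intro u
    by_cases h : H.Adj x u
    · simp [p, h]
    · simpa [p, h] using (hdom u).resolve_left h
  have hTp : ∀ u, u ≠ x → T.Adj u (p u) := by
    intro u hu
    exact (SimpleGraph.fromRel_adj _ _ _).2 ⟨(hpadj u).ne', Or.inl ⟨hu, rfl⟩⟩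
  have hyx : T.Adj y x := by
    have := hTp y hxy.ne'
    simpa [p, hxy] using this
  have hclose : ∀ u, T.edist u x ≤ 1 ∨ T.edist u y ≤ 1 := by
    intro u
    by_cases hu : u = x
    · left; simp [hu]
    · have := hTp u hu
      by_cases h : H.Adj x u
      · left; exact edist_le_one_iff_adj_or_eq.2 (Or.inl (by simpa [p, h] using this))
      · right; exact edist_le_one_iff_adj_or_eq.2 (Or.inl (by simpa [p, h] using this))
  have hcc : ∀ a b, (a = x ∨ a = y) → (b = x ∨ b = y) → T.edist a b ≤ 1 := by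
    rintro a b (rfl | rfl) (rfl | rfl)
    · simp
    · exact edist_le_one_iff_adj_or_eq.2 (Or.inl hyx.symm)
    · exact edist_le_one_iff_adj_or_eq.2 (Or.inl hyx)
    · simp
  have hdist : ∀ u v, T.edist u v ≤ 3 := by
    intro u v
    have key : ∀ a b, (a = x ∨ a = y) → (b = x ∨ b = y) → T.edist u a ≤ 1 → T.edist v b ≤ 1 →
        T.edist u v ≤ 3 := by
      intro a b ha hb h1 h2
      calc T.edist u v ≤ T.edist u a + T.edist a v := SimpleGraph.edist_triangle
        _ ≤ T.edist u a + (T.edist a b + T.edist b v) := by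
            gcongr; exact SimpleGraph.edist_triangle
        _ ≤ 1 + (1 + 1) := by
            gcongr
            · exact hcc a b ha hb
            · rw [edist_comm]; exact h2
        _ = 3 := by norm_num
    rcases hclose u with h1 | h1 <;> rcases hclose v with h2 | h2
    · exact key x x (Or.inl rfl) (Or.inl rfl) h1 h2
    · exact key x y (Or.inl rfl) (Or.inr rfl) h1 h2
    · exact key y x (Or.inr rfl) (Or.inl rfl) h1 h2
    · exact key y y (Or.inr rfl) (Or.inr rfl) h1 h2
  have hconn : T.Connected := by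
    have : Nonempty V := ⟨x⟩
    refine Connected.mk fun u v => reachable_of_edist_ne_top ?_
    exact ne_top_of_le_ne_top (by decide) (hdist u v)
  refine ⟨T, ?_, ediam_le_of_edist_le hdist, ?_⟩
  · rw [isTree_iff_connected_and_card]
    refine ⟨hconn, le_antisymm ?_ hconn.card_vert_le_card_edgeSet_add_one⟩
    have hsub : T.edgeSet ⊆ (fun u => s(u, p u)) '' {u | u ≠ x} := by
      intro e he
      induction e using Sym2.ind with
      | h a b =>
        rw [mem_edgeSet, SimpleGraph.fromRel_adj] at he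
        rcases he with ⟨-, ⟨h1, h2⟩ | ⟨h1, h2⟩⟩
        · exact ⟨a, h1, by simp [h2]⟩
        · exact ⟨b, h1, by simp [h2]⟩
    have h1 : T.edgeSet.ncard ≤ ({u | u ≠ x} : Set V).ncard :=
      (Set.ncard_le_ncard hsub (Set.toFinite _)).trans (Set.ncard_image_le (Set.toFinite _))
    have h2 : ({u | u ≠ x} : Set V).ncard + 1 = Nat.card V := by
      have : ({u | u ≠ x} : Set V) = {x}ᶜ := by ext; simp
      rw [this]
      have := Set.ncard_add_ncard_compl ({x} : Set V)
      rw [Set.ncard_singleton] at this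
      omega
    have h3 : Nat.card T.edgeSet = T.edgeSet.ncard := rfl
    omega
  · intro u v huv
    rw [SimpleGraph.fromRel_adj] at huv
    rcases huv with ⟨-, ⟨-, h2⟩ | ⟨-, h2⟩⟩
    · rw [h2]; exact (hpadj u).symm
    · rw [h2]; exact hpadj v

/-- A graph contains a tree on `n ≥ 2` vertices with diameter at most three iff some edge has at
least `n` vertices adjacent to one of its ends. -/
theorem contains_iff {V : Type*} [Finite V] (G : SimpleGraph V) (n : ℕ) (hn : 2 ≤ n) :
    (∃ T : SimpleGraph (Fin n), T.IsTree ∧ T.ediam ≤ 3 ∧ T.IsContained G) ↔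
      ∃ x y, G.Adj x y ∧ n ≤ {z | G.Adj x z ∨ G.Adj y z}.ncard := by
  classical
  constructor
  · rintro ⟨T, hT, hd, ⟨f⟩⟩
    have : Nontrivial (Fin n) := Fin.nontrivial_iff_two_le.2 hn
    obtain ⟨x, y, hxy, hdom⟩ := exists_dominating_edge hT hd
    refine ⟨f x, f y, f.toHom.map_adj hxy, ?_⟩
    have hsub : Set.range f ⊆ {z | G.Adj (f x) z ∨ G.Adj (f y) z} := by
      rintro _ ⟨z, rfl⟩
      rcases hdom z with h | h
      · exact Or.inl (f.toHom.map_adj h)
      · exact Or.inr (f.toHom.map_adj h)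
    have h1 := Set.ncard_le_ncard hsub (Set.toFinite _)
    have h2 : (Set.range f).ncard = n := by
      have hinj : Function.Injective (f : Fin n → V) := f.injective
      rw [Set.ncard_range_of_injective hinj]; simp
    omega
  · rintro ⟨x, y, hxy, hcard⟩
    have hsub : ({x, y} : Set V) ⊆ {z | G.Adj x z ∨ G.Adj y z} := by
      rintro z (rfl | rfl)
      · exact Or.inr hxy.symm
      · exact Or.inl hxy
    obtain ⟨U, hU1, hU2, hU3⟩ := Set.exists_subsuperset_card_eq hsub (n := n)
      (by rw [Set.ncard_pair hxy.ne]; exact hn) hcard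
    have hfin : Fintype U := Fintype.ofFinite U
    have hc : Fintype.card U = n := by
      rw [← Nat.card_eq_fintype_card]; exact hU3
    let e : Fin n ≃ U := (Fintype.equivFinOfCardEq hc).symm
    let f : Fin n ↪ V := e.toEmbedding.trans (Function.Embedding.subtype _)
    have hf : ∀ i, f i ∈ U := fun i => (e i).2
    obtain ⟨x', hx'⟩ : ∃ i, f i = x := ⟨e.symm ⟨x, hU1 (by simp)⟩, by simp [f]⟩
    obtain ⟨y', hy'⟩ : ∃ i, f i = y := ⟨e.symm ⟨y, hU1 (by simp)⟩, by simp [f]⟩
    obtain ⟨T, hT, hd, hle⟩ := exists_tree_of_dominating (G.comap f) x' y'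
      (by simpa [hx', hy'] using hxy) (by
        intro z
        have := hU2 (hf z)
        simpa [hx', hy'] using this)
    exact ⟨T, hT, hd, isContained_iff_exists_le_comap.2 ⟨f, hle⟩⟩

end Pool.Agent.MP_f88521_co

end

-- part MP_f88521_co.Good
section

/-! Colourings in which every edge has many common neighbours in the other colour. -/

namespace Pool.Agent.MP_f88521_co

open SimpleGraph Finset

/-- Every edge of `G` has at least `m` common neighbours in the complement. -/
def Half {V : Type*} (G : SimpleGraph V) (m : ℕ) : Prop :=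
  ∀ x y, G.Adj x y → m ≤ {z | Gᶜ.Adj x z ∧ Gᶜ.Adj y z}.ncard

def Good {V : Type*} (G : SimpleGraph V) (m : ℕ) : Prop := Half G m ∧ Half Gᶜ m

def Ex (N m : ℕ) : Prop := ∃ G : SimpleGraph (Fin N), Good G m

def Arrows (N n : ℕ) : Prop :=
  ∀ G : SimpleGraph (Fin N), ∃ T : SimpleGraph (Fin n),
    T.IsTree ∧ T.ediam ≤ 3 ∧ (T.IsContained G ∨ T.IsContained Gᶜ)

theorem card_split {V : Type*} [Finite V] (G : SimpleGraph V) {x y : V} (h : G.Adj x y) :
    {z | G.Adj x z ∨ G.Adj y z}.ncard + {z | Gᶜ.Adj x z ∧ Gᶜ.Adj y z}.ncard = Nat.card V := by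
  have : {z | Gᶜ.Adj x z ∧ Gᶜ.Adj y z} = {z | G.Adj x z ∨ G.Adj y z}ᶜ := by
    ext z
    simp only [compl_adj, Set.mem_ofPred_eq, Set.mem_compl_iff, not_or]
    constructor
    · rintro ⟨⟨-, h1⟩, -, h2⟩; exact ⟨h1, h2⟩
    · rintro ⟨h1, h2⟩
      refine ⟨⟨?_, h1⟩, ?_, h2⟩
      · rintro rfl; exact h2 h.symm
      · rintro rfl; exact h1 h
  rw [this]
  exact Set.ncard_add_ncard_compl _

theorem half_iff {N n : ℕ} (hn : 2 ≤ n) (G : SimpleGraph (Fin N)) :
    Half G (N + 1 - n) ↔
      ¬ ∃ T : SimpleGraph (Fin n), T.IsTree ∧ T.ediam ≤ 3 ∧ T.IsContained G := by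
  rw [contains_iff G n hn]
  unfold Half
  push Not
  refine forall₃_congr fun x y h => ?_
  have := card_split G h
  simp only [Nat.card_eq_fintype_card, Fintype.card_fin] at this
  omega

theorem not_arrows_iff {N n : ℕ} (hn : 2 ≤ n) : ¬ Arrows N n ↔ Ex N (N + 1 - n) := by
  unfold Arrows Ex Good
  rw [not_forall]
  refine exists_congr fun G => ?_
  rw [half_iff hn, half_iff hn]
  constructor
  · intro h
    exact ⟨fun ⟨T, h1, h2, h3⟩ => h ⟨T, h1, h2, Or.inl h3⟩,
      fun ⟨T, h1, h2, h3⟩ => h ⟨T, h1, h2, Or.inr h3⟩⟩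
  · rintro ⟨h, h'⟩ ⟨T, h1, h2, h3 | h3⟩
    · exact h ⟨T, h1, h2, h3⟩
    · exact h' ⟨T, h1, h2, h3⟩

theorem arrows_mono {N N' n : ℕ} (hN : N ≤ N') (h : Arrows N n) : Arrows N' n := by
  intro G
  let f : Fin N ↪ Fin N' := (Fin.castLEEmb hN)
  obtain ⟨T, h1, h2, h3⟩ := h (G.comap f)
  refine ⟨T, h1, h2, ?_⟩
  rcases h3 with h3 | h3
  · exact Or.inl (h3.trans (isContained_iff_exists_le_comap.2 ⟨f, le_rfl⟩))
  · refine Or.inr (h3.trans (isContained_iff_exists_le_comap.2 ⟨f, ?_⟩))
    intro u v huv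
    simp only [compl_adj, comap_adj] at huv ⊢
    exact ⟨fun h => huv.1 (f.injective h), huv.2⟩

/-- Blow-up of a colouring along a map with large fibres. -/
theorem good_blowup {V W : Type*} [Finite V] [Finite W] (G : SimpleGraph V) (m t : ℕ)
    (hG : Good G m) (p : V → V) (hp : ∀ v, p v ≠ v) (f : W → V)
    (hf : ∀ v, t ≤ (f ⁻¹' {v}).ncard) : ∃ G' : SimpleGraph W, Good G' (m * t) := by
  classical
  have hpre : ∀ s : Set V, s.ncard * t ≤ (f ⁻¹' s).ncard := by
    intro s
    have := Fintype.ofFinite V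
    have := Fintype.ofFinite W
    have h1 : (f ⁻¹' s).ncard = (univ.filter fun w => f w ∈ s.toFinset).card := by
      rw [← Set.ncard_coe_finset]; congr 1; ext w; simp
    rw [h1, Finset.card_eq_sum_card_fiberwise (f := f) (t := s.toFinset) (by intro w; simp),
      Set.ncard_eq_toFinset_card', ← smul_eq_mul]
    refine Finset.card_nsmul_le_sum _ _ _ fun v hv => (hf v).trans (le_of_eq ?_)
    rw [← Set.ncard_coe_finset]; congr 1; ext w
    simp only [Set.mem_preimage, Set.mem_singleton_iff, coe_filter, mem_filter, mem_univ, true_and,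
      Set.mem_ofPred_eq]
    constructor
    · rintro rfl; exact ⟨hv, rfl⟩
    · exact fun h => h.2
  let G' : SimpleGraph W :=
    { Adj := fun u v => u ≠ v ∧ (if f u = f v then G.Adj (f u) (p (f u)) else G.Adj (f u) (f v))
      symm := ⟨by
        rintro u v ⟨h1, h2⟩
        refine ⟨h1.symm, ?_⟩
        by_cases h : f u = f v
        · simpa [h] using h2
        · rw [if_neg h] at h2
          rw [if_neg (Ne.symm h)]
          exact h2.symm⟩
      loopless := ⟨fun u h => h.1 rfl⟩ }
  have hadj : ∀ u v, G.Adj (f u) (f v) → G'.Adj u v := by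
    intro u v h
    refine ⟨fun e => h.ne (by rw [e]), ?_⟩
    rw [if_neg h.ne]; exact h
  have hadjc : ∀ u v, Gᶜ.Adj (f u) (f v) → G'ᶜ.Adj u v := by
    intro u v h
    rw [compl_adj] at h ⊢
    refine ⟨fun e => h.1 (by rw [e]), fun h' => ?_⟩
    have := h'.2
    rw [if_neg h.1] at this; exact h.2 this
  refine ⟨G', ?_, ?_⟩
  · intro u v huv
    by_cases h : f u = f v
    · have h2 := huv.2
      rw [if_pos h] at h2
      refine (Nat.mul_le_mul_right t (hG.1 _ _ h2)).trans ((hpre _).trans ?_)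
      refine Set.ncard_le_ncard (fun w hw => ?_) (Set.toFinite _)
      exact ⟨hadjc _ _ hw.1, hadjc _ _ (h ▸ hw.1)⟩
    · have h2 := huv.2
      rw [if_neg h] at h2
      refine (Nat.mul_le_mul_right t (hG.1 _ _ h2)).trans ((hpre _).trans ?_)
      refine Set.ncard_le_ncard (fun w hw => ?_) (Set.toFinite _)
      exact ⟨hadjc _ _ hw.1, hadjc _ _ hw.2⟩
  · intro u v huv
    rw [compl_adj] at huv
    rw [compl_compl]
    have hG2 : ∀ x y, Gᶜ.Adj x y → m ≤ {z | G.Adj x z ∧ G.Adj y z}.ncard := by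
      have := hG.2
      unfold Half at this
      rwa [compl_compl] at this
    by_cases h : f u = f v
    · have h2 : Gᶜ.Adj (f u) (p (f u)) := by
        rw [compl_adj]
        refine ⟨(hp _).symm, fun h' => huv.2 ⟨huv.1, ?_⟩⟩
        rw [if_pos h]; exact h'
      refine (Nat.mul_le_mul_right t (hG2 _ _ h2)).trans ((hpre _).trans ?_)
      refine Set.ncard_le_ncard (fun w hw => ?_) (Set.toFinite _)
      exact ⟨hadj _ _ hw.1, hadj _ _ (h ▸ hw.1)⟩
    · have h2 : Gᶜ.Adj (f u) (f v) := by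
        rw [compl_adj]
        refine ⟨h, fun h' => huv.2 ⟨huv.1, ?_⟩⟩
        rw [if_neg h]; exact h'
      refine (Nat.mul_le_mul_right t (hG2 _ _ h2)).trans ((hpre _).trans ?_)
      refine Set.ncard_le_ncard (fun w hw => ?_) (Set.toFinite _)
      exact ⟨hadj _ _ hw.1, hadj _ _ hw.2⟩

theorem ex_blowup {N m : ℕ} (h : Ex N m) (hN : 2 ≤ N) (t N' : ℕ) (hN' : N * t ≤ N') :
    Ex N' (m * t) := by
  obtain ⟨G, hG⟩ := h
  have : Nontrivial (Fin N) := Fin.nontrivial_iff_two_le.2 hN
  have hN0 : 0 < N := by omega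
  choose p hp using fun v : Fin N => exists_ne v
  refine good_blowup G m t hG p hp (fun i : Fin N' => ⟨i % N, Nat.mod_lt _ hN0⟩) fun v => ?_
  let g : Fin t → Fin N' := fun j => ⟨N * j + v, by
    have h1 : N * (j + 1) ≤ N * t := Nat.mul_le_mul_left N j.2
    have := v.2
    rw [mul_add, mul_one] at h1
    omega⟩
  have hg : Function.Injective g := by
    intro a b hab
    have := congrArg Fin.val hab
    simp only [g, Nat.add_right_cancel_iff] at this
    exact Fin.ext (Nat.eq_of_mul_eq_mul_left hN0 this)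
  have h1 : (Set.range g).ncard = t := by rw [Set.ncard_range_of_injective hg]; simp
  rw [← h1]
  refine Set.ncard_le_ncard ?_ (Set.toFinite _)
  rintro _ ⟨j, rfl⟩
  simp only [g, Set.mem_preimage, Set.mem_singleton_iff]
  ext
  simp [Nat.mod_eq_of_lt v.2]

/-- Deleting vertices. -/
theorem ex_delete {N m : ℕ} (h : Ex N m) (j : ℕ) (hj : j ≤ m) (hm : m + 1 ≤ N) :
    Ex (N - j) (m - j) := by
  have h1 : ¬ Arrows N (N + 1 - m) := by
    rw [not_arrows_iff (by omega)]
    have : N + 1 - (N + 1 - m) = m := by omega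
    rwa [this]
  have h2 : ¬ Arrows (N - j) (N + 1 - m) := fun h => h1 (arrows_mono (by omega) h)
  rw [not_arrows_iff (by omega)] at h2
  have : N - j + 1 - (N + 1 - m) = m - j := by omega
  rwa [this] at h2

end Pool.Agent.MP_f88521_co

end

-- part MP_f88521_co.Bound
section

/-! The counting bound `4 m + 1 ≤ N`, its equality case, and the case `N = 21`. -/

namespace Pool.Agent.MP_f88521_co

open SimpleGraph Finset

open Classical in
/-- The sign matrix of a colouring. -/
noncomputable def sgn {V : Type*} (G : SimpleGraph V) (x y : V) : ℤ :=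
  if x = y then 0 else if G.Adj x y then 1 else -1

theorem sgn_symm {V : Type*} (G : SimpleGraph V) (x y : V) : sgn G x y = sgn G y x := by
  unfold sgn
  by_cases h : x = y
  · simp [h]
  · by_cases h2 : G.Adj x y
    · simp [h, Ne.symm h, h2, h2.symm]
    · have h3 : ¬ G.Adj y x := fun h' => h2 h'.symm
      simp [h, Ne.symm h, h2, h3]

theorem sgn_self {V : Type*} (G : SimpleGraph V) (x : V) : sgn G x x = 0 := by simp [sgn]

theorem sgn_sq {V : Type*} (G : SimpleGraph V) {x y : V} (h : x ≠ y) :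
    sgn G x y * sgn G x y = 1 := by
  unfold sgn
  rw [if_neg h]
  split_ifs <;> norm_num

theorem ncard_eq_sum {V : Type*} [Fintype V] (p : V → Prop) [DecidablePred p] :
    (({z | p z} : Set V).ncard : ℤ) = ∑ z, if p z then (1 : ℤ) else 0 := by
  rw [Finset.sum_boole, ← Set.ncard_coe_finset]
  congr 2; ext z; simp

theorem key_ineq {V : Type*} [Fintype V] (G : SimpleGraph V) (m : ℕ) (hG : Good G m) {x y : V}
    (hxy : x ≠ y) :
    4 * (m : ℤ) ≤ Fintype.card V + ∑ z, sgn G x z * sgn G y z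
      - sgn G x y * (∑ z, sgn G x z + ∑ z, sgn G y z) := by
  classical
  have hcard : (Fintype.card V : ℤ) = ∑ _z : V, (1 : ℤ) := by simp
  rw [hcard, mul_add, Finset.mul_sum, Finset.mul_sum, ← Finset.sum_add_distrib,
    ← Finset.sum_add_distrib, ← Finset.sum_sub_distrib]
  by_cases h : G.Adj x y
  · have h1 : (m : ℤ) ≤ _ := Int.ofNat_le.2 (hG.1 x y h)
    rw [ncard_eq_sum] at h1
    refine (mul_le_mul_of_nonneg_left h1 (by norm_num)).trans (le_of_eq ?_)
    rw [Finset.mul_sum]
    refine Finset.sum_congr rfl fun z _ => ?_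
    by_cases hx : x = z
    · subst hx; simp [sgn, h, hxy, hxy.symm, h.symm]
    by_cases hy : y = z
    · subst hy; simp [sgn, h, hxy]
    by_cases h1 : G.Adj x z <;> by_cases h2 : G.Adj y z <;> simp [sgn, h, hxy, hx, hy, h1, h2]
  · have h0 := hG.2 x y ((compl_adj _ _ _).2 ⟨hxy, h⟩)
    rw [compl_compl] at h0
    have h1 : (m : ℤ) ≤ _ := Int.ofNat_le.2 h0
    rw [ncard_eq_sum] at h1
    refine (mul_le_mul_of_nonneg_left h1 (by norm_num)).trans (le_of_eq ?_)
    rw [Finset.mul_sum]
    have h' : ¬ G.Adj y x := fun h'' => h h''.symm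
    refine Finset.sum_congr rfl fun z _ => ?_
    by_cases hx : x = z
    · subst hx; simp [sgn, h, hxy, hxy.symm, h']
    by_cases hy : y = z
    · subst hy; simp [sgn, h, hxy]
    by_cases h1 : G.Adj x z <;> by_cases h2 : G.Adj y z <;> simp [sgn, h, hxy, hx, hy, h1, h2]

theorem diag_sum {V : Type*} [Fintype V] (G : SimpleGraph V) (x : V) :
    ∑ z, sgn G x z * sgn G x z = Fintype.card V - 1 := by
  classical
  have : ∀ z, sgn G x z * sgn G x z = 1 - if z = x then 1 else 0 := by
    intro z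
    by_cases h : z = x
    · simp [h, sgn_self]
    · simp [h, sgn_sq G (Ne.symm h)]
  simp [this, Finset.sum_sub_distrib]

/-- The slack function. -/
noncomputable def slack {V : Type*} [Fintype V] (G : SimpleGraph V) (x y : V) : ℤ :=
  Fintype.card V + ∑ z, sgn G x z * sgn G y z - sgn G x y * (∑ z, sgn G x z + ∑ z, sgn G y z)

theorem slack_total {V : Type*} [Fintype V] (G : SimpleGraph V) :
    ∑ x, ∑ y, slack G x y =
      (Fintype.card V : ℤ) ^ 3 - ∑ x, (∑ z, sgn G x z) ^ 2 := by
  have h1 : ∑ x, ∑ y, ∑ z, sgn G x z * sgn G y z = ∑ x, (∑ z, sgn G x z) ^ 2 := by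
    have : ∀ x, (∑ z, sgn G x z) ^ 2 = ∑ y, ∑ z, sgn G y x * sgn G z x := by
      intro x
      rw [sq, Finset.sum_mul_sum]
      simp only [sgn_symm G x]
    simp only [this]
    rw [Finset.sum_comm (f := fun x y => ∑ z, sgn G y x * sgn G z x)]
    refine Finset.sum_congr rfl fun x _ => ?_
    rw [Finset.sum_comm]
  have h2 : ∑ x, ∑ y, sgn G x y * (∑ z, sgn G x z) = ∑ x, (∑ z, sgn G x z) ^ 2 := by
    refine Finset.sum_congr rfl fun x _ => ?_
    rw [← Finset.sum_mul, sq]
  have h3 : ∑ x, ∑ y, sgn G x y * (∑ z, sgn G y z) = ∑ x, (∑ z, sgn G x z) ^ 2 := by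
    rw [Finset.sum_comm, ← h2]
    simp only [sgn_symm G]
  simp only [slack, mul_add, Finset.sum_sub_distrib, Finset.sum_add_distrib, h1, h2, h3]
  simp only [Finset.sum_const, Finset.card_univ, nsmul_eq_mul]
  ring

theorem slack_self {V : Type*} [Fintype V] (G : SimpleGraph V) (x : V) :
    slack G x x = 2 * Fintype.card V - 1 := by
  simp only [slack, diag_sum, sgn_self]; ring

theorem excess_sum {V : Type*} [Fintype V] [DecidableEq V] (G : SimpleGraph V) (m : ℕ) :
    ∑ x, ∑ y, (if y = x then 0 else slack G x y - 4 * m) + ∑ x, (∑ z, sgn G x z) ^ 2 =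
      (Fintype.card V : ℤ) * (Fintype.card V - 1) * (Fintype.card V - 1 - 4 * m) := by
  have : ∀ x y, (if y = x then 0 else slack G x y - 4 * m) =
      slack G x y - 4 * m - if y = x then (2 * (Fintype.card V : ℤ) - 1 - 4 * m) else 0 := by
    intro x y
    by_cases h : y = x
    · simp [h, slack_self]
    · simp [h]
  simp only [this, Finset.sum_sub_distrib, slack_total, Finset.sum_ite_eq', Finset.mem_univ,
    if_true, Finset.sum_const, Finset.card_univ, nsmul_eq_mul]
  ring

theorem ex_bound {N m : ℕ} (h : Ex N m) (hN : 2 ≤ N) : 4 * m + 1 ≤ N := by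
  obtain ⟨G, hG⟩ := h
  have h1 := excess_sum G m
  have h2 : 0 ≤ ∑ x, ∑ y, (if y = x then 0 else slack G x y - 4 * m) := by
    refine Finset.sum_nonneg fun x _ => Finset.sum_nonneg fun y _ => ?_
    split_ifs with h
    · exact le_rfl
    · exact sub_nonneg.2 (key_ineq G m hG (Ne.symm h))
  have h3 : 0 ≤ ∑ x, (∑ z, sgn G x z) ^ 2 := Finset.sum_nonneg fun x _ => sq_nonneg _
  rw [Fintype.card_fin] at h1
  by_contra hc
  have h4 : (N : ℤ) - 1 - 4 * m < 0 := by omega
  have h5 : (0 : ℤ) < N * (N - 1) := by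
    have : (2 : ℤ) ≤ N := by exact_mod_cast hN
    nlinarith
  nlinarith

/-- No symmetric integer matrix of order `22` squares to `21`. -/
theorem no_conference {ι : Type*} [Fintype ι] [DecidableEq ι] (hι : Fintype.card ι = 22)
    (C : Matrix ι ι ℤ) (hs : C.transpose = C) (hC : C * C = (21 : ℤ) • (1 : Matrix ι ι ℤ)) :
    False := by
  classical
  let D : Matrix ι ι (ZMod 3) := C.map (Int.castRingHom (ZMod 3))
  have hDs : D.transpose = D := by
    simp only [D]; rw [← Matrix.transpose_map, hs]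
  have hDD : D * D = 0 := by
    simp only [D]
    rw [← Matrix.map_mul, hC]
    ext i j
    rw [Matrix.map_apply, Matrix.smul_apply, smul_eq_mul, map_mul]
    have : (Int.castRingHom (ZMod 3)) 21 = 0 := by decide
    rw [this, zero_mul, Matrix.zero_apply]
  have hker : ∀ x : ι → ZMod 3, D.mulVec x = 0 → ∃ y, x = D.mulVec y := by
    intro x hx
    let x' : ι → ℤ := fun i => (x i).cast
    have hx' : ∀ i, ((x' i : ℤ) : ZMod 3) = x i := fun i => by simp [x']
    have hcast : ∀ (v : ι → ℤ) i, ((C.mulVec v i : ℤ) : ZMod 3) =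
        D.mulVec (fun j => (v j : ZMod 3)) i := by
      intro v i
      simp [D, Matrix.mulVec, dotProduct]
    have hdiv : ∀ i, (3 : ℤ) ∣ C.mulVec x' i := by
      intro i
      have := hcast x' i
      simp only [hx'] at this
      rw [hx] at this
      exact (ZMod.intCast_zmod_eq_zero_iff_dvd _ 3).1 this
    choose y hy using hdiv
    have h1 : C.mulVec (C.mulVec x') = (21 : ℤ) • x' := by
      rw [Matrix.mulVec_mulVec, hC, Matrix.smul_mulVec, Matrix.one_mulVec]
    have h2 : C.mulVec x' = (3 : ℤ) • y := by ext i; simp [hy i]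
    rw [h2, Matrix.mulVec_smul] at h1
    refine ⟨fun j => (y j : ZMod 3), funext fun i => ?_⟩
    have h3 := congrFun h1 i
    simp only [Pi.smul_apply, smul_eq_mul] at h3
    have h4 : C.mulVec y i = 7 * x' i := by omega
    rw [← hcast, h4]
    push_cast
    rw [hx']
    have : (7 : ZMod 3) = 1 := by decide
    rw [this, one_mul]
  have hiso : ∀ x y : ι → ZMod 3, D.mulVec x ⬝ᵥ D.mulVec y = 0 := by
    intro x y
    rw [Matrix.dotProduct_mulVec, ← hDs, Matrix.vecMul_transpose, hDs, Matrix.mulVec_mulVec, hDD]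
    simp
  have hadj : ∀ x y : ι → ZMod 3, x ⬝ᵥ D.mulVec y = D.mulVec x ⬝ᵥ y := by
    intro x y
    rw [Matrix.dotProduct_mulVec, ← hDs, Matrix.vecMul_transpose, hDs]
  let ψ : AddChar (ZMod 3) ℂ := ZMod.stdAddChar
  have hψ : ψ.IsPrimitive := ZMod.isPrimitive_stdAddChar 3
  have hsum : ∀ a : ZMod 3, ∑ b, ψ (a * b) = if a = 0 then 3 else 0 := by
    intro a
    have := AddChar.sum_mulShift a hψ
    simp only [mul_comm] at this ⊢
    rw [this]
    split_ifs <;> simp
  have hprod : ∀ f : ι → ZMod 3 → ZMod 3,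
      ∑ x : ι → ZMod 3, ψ (∑ i, f i (x i)) = ∏ i, ∑ a, ψ (f i a) := by
    intro f
    rw [Finset.prod_univ_sum]
    simp only [Fintype.piFinset_univ]
    refine Finset.sum_congr rfl fun x _ => ?_
    induction (Finset.univ : Finset ι) using Finset.induction_on with
    | empty => simp
    | insert a s ha ih => rw [Finset.sum_insert ha, Finset.prod_insert ha, AddChar.map_add_eq_mul, ih]
  have hlin : ∀ v : ι → ZMod 3, ∑ y : ι → ZMod 3, ψ (v ⬝ᵥ y) = if v = 0 then 3 ^ 22 else 0 := by
    intro v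
    have := hprod fun i a => v i * a
    simp only [hsum] at this
    simp only [dotProduct]
    rw [this]
    split_ifs with h
    · simp [h, hι]
    · obtain ⟨i, hi⟩ := Function.ne_iff.1 h
      exact Finset.prod_eq_zero (Finset.mem_univ i) (by rw [if_neg (by simpa using hi)])
  have hgauss : ∑ x : ι → ZMod 3, ψ (x ⬝ᵥ x) = -3 ^ 11 := by
    have := hprod fun _ a => a * a
    simp only [dotProduct]
    rw [this]
    have h1 := hsum 1
    have e3 : ∀ g : ZMod 3 → ℂ, ∑ a, g a = g 0 + g 1 + g 2 := fun g => Fin.sum_univ_three g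
    rw [e3] at h1
    have h12 : ψ 1 * ψ 1 = ψ 2 := by rw [← AddChar.map_add_eq_mul]; rfl
    have h22 : (2 * 2 : ZMod 3) = 1 := by decide
    simp only [e3, h22, mul_zero, mul_one, one_mul, AddChar.map_zero_eq_one, Finset.prod_const,
      Finset.card_univ, hι] at h1 ⊢
    have h10 : (1 : ZMod 3) ≠ 0 := by decide
    rw [if_neg h10] at h1
    have : (1 + ψ 1 + ψ 1) ^ 2 = -3 := by linear_combination 4 * h1 + 4 * h12
    rw [show 22 = 2 * 11 from rfl, pow_mul, this]
    norm_num
  have hshift : ∀ y : ι → ZMod 3, ∑ x : ι → ZMod 3, ψ (x ⬝ᵥ x) =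
      ∑ x : ι → ZMod 3, ψ (x ⬝ᵥ x) * ψ (((2 : ZMod 3) • D.mulVec x) ⬝ᵥ y) := by
    intro y
    rw [← Equiv.sum_comp (Equiv.addRight (D.mulVec y))]
    refine Finset.sum_congr rfl fun x _ => ?_
    rw [← AddChar.map_add_eq_mul]
    congr 1
    simp only [Equiv.coe_addRight, add_dotProduct, dotProduct_add, hiso, smul_dotProduct]
    rw [dotProduct_comm (D.mulVec y) x, hadj]
    simp only [smul_eq_mul]
    ring
  have htot : (3 : ℂ) ^ 22 * ∑ x : ι → ZMod 3, ψ (x ⬝ᵥ x) =
      3 ^ 22 * ((univ.filter fun x : ι → ZMod 3 => D.mulVec x = 0).card : ℂ) := by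
    calc (3 : ℂ) ^ 22 * ∑ x : ι → ZMod 3, ψ (x ⬝ᵥ x)
        = ∑ _y : ι → ZMod 3, ∑ x : ι → ZMod 3, ψ (x ⬝ᵥ x) := by
          rw [Finset.sum_const, Finset.card_univ, Fintype.card_fun, ZMod.card, hι, nsmul_eq_mul]
          norm_num
      _ = ∑ y : ι → ZMod 3, ∑ x : ι → ZMod 3,
            ψ (x ⬝ᵥ x) * ψ (((2 : ZMod 3) • D.mulVec x) ⬝ᵥ y) :=
          Finset.sum_congr rfl fun y _ => hshift y
      _ = ∑ x : ι → ZMod 3, ψ (x ⬝ᵥ x) * ∑ y : ι → ZMod 3,
            ψ (((2 : ZMod 3) • D.mulVec x) ⬝ᵥ y) := by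
          rw [Finset.sum_comm]; simp only [Finset.mul_sum]
      _ = ∑ x : ι → ZMod 3, if D.mulVec x = 0 then (3 : ℂ) ^ 22 else 0 := by
          refine Finset.sum_congr rfl fun x _ => ?_
          rw [hlin]
          by_cases h : D.mulVec x = 0
          · obtain ⟨y, hy⟩ := hker x h
            have : x ⬝ᵥ x = 0 := by rw [hy]; exact hiso y y
            simp [h, this]
          · have h2 : (2 : ZMod 3) ≠ 0 := by decide
            have : (2 : ZMod 3) • D.mulVec x ≠ 0 := smul_ne_zero h2 h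
            simp [h, this]
      _ = _ := by
          rw [← Finset.sum_filter, Finset.sum_const, nsmul_eq_mul, mul_comm]
  rw [hgauss] at htot
  have h5 := mul_left_cancel₀ (by norm_num) htot
  have h6 : (-3 ^ 11 : ℤ) = ((univ.filter fun x : ι → ZMod 3 => D.mulVec x = 0).card : ℤ) := by
    exact_mod_cast h5
  omega

theorem not_ex_21 : ¬ Ex 21 5 := by
  rintro ⟨G, hG⟩
  have h1 := excess_sum G 5
  have h2 : ∀ x y, 0 ≤ (if y = x then 0 else slack G x y - 4 * (5 : ℕ)) := by
    intro x y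
    split_ifs with h
    · exact le_rfl
    · exact sub_nonneg.2 (key_ineq G 5 hG (Ne.symm h))
  have h2' : 0 ≤ ∑ x, ∑ y, (if y = x then 0 else slack G x y - 4 * (5 : ℕ)) :=
    Finset.sum_nonneg fun x _ => Finset.sum_nonneg fun y _ => h2 x y
  have h3 : 0 ≤ ∑ x, (∑ z, sgn G x z) ^ 2 := Finset.sum_nonneg fun x _ => sq_nonneg _
  rw [Fintype.card_fin] at h1
  norm_num at h1 h2' h2
  have h4 : ∑ x, (∑ z, sgn G x z) ^ 2 = 0 := by omega
  have h5 : ∑ x, ∑ y, (if y = x then 0 else slack G x y - 20) = 0 := by omega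
  have hd : ∀ x, ∑ z, sgn G x z = 0 := by
    intro x
    have := (Finset.sum_eq_zero_iff_of_nonneg fun x _ => sq_nonneg _).1 h4 x (mem_univ x)
    exact pow_eq_zero_iff (two_ne_zero) |>.1 this
  have hoff : ∀ x y, y ≠ x → ∑ z, sgn G x z * sgn G y z = -1 := by
    intro x y hxy
    have a1 := (Finset.sum_eq_zero_iff_of_nonneg fun x _ =>
      Finset.sum_nonneg fun y _ => h2 x y).1 h5 x (mem_univ x)
    have a2 := (Finset.sum_eq_zero_iff_of_nonneg fun y _ => h2 x y).1 a1 y (mem_univ y)
    rw [if_neg hxy] at a2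
    simp only [slack, hd, Fintype.card_fin] at a2
    push_cast at a2
    linarith
  let C : Matrix (Option (Fin 21)) (Option (Fin 21)) ℤ := fun i j =>
    match i, j with
    | none, none => 0
    | none, some _ => 1
    | some _, none => 1
    | some x, some y => sgn G x y
  refine no_conference (ι := Option (Fin 21)) (by simp) C ?_ ?_
  · ext i j
    rw [Matrix.transpose_apply]
    rcases i with _ | x <;> rcases j with _ | y <;> simp [C, sgn_symm G]
  · ext i j
    rw [Matrix.mul_apply, Fintype.sum_option]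
    rcases i with _ | x <;> rcases j with _ | y
    · simp [C]
    · have := hd y
      simp only [sgn_symm G y] at this
      simp [C, this]
    · simp [C, hd x]
    · by_cases h : y = x
      · subst h
        have := diag_sum G y
        simp only [C, sgn_symm G _ y] at this ⊢
        simp [this]
      · have := hoff x y h
        simp only [C, sgn_symm G _ y] at this ⊢
        simp [this, Ne.symm h]

end Pool.Agent.MP_f88521_co

end

-- part MP_f88521_co.Examples
section

/-! Explicit colourings and the classification. -/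

namespace Pool.Agent.MP_f88521_co

open SimpleGraph Finset

def chk (N m : ℕ) (a : ℕ → ℕ → Bool) : Bool :=
  (List.range N).all fun x => (List.range N).all fun y =>
    (a x y == a y x) && (x == y || decide (m ≤ ((List.range N).filter fun z =>
      z != x && z != y && a x z != a x y && a y z != a x y).length))

theorem ex_of_chk {N m : ℕ} {a : ℕ → ℕ → Bool} (h : chk N m a = true) : Ex N m := by
  simp only [chk, List.all_eq_true, List.mem_range, Bool.and_eq_true, beq_iff_eq,
    Bool.or_eq_true, decide_eq_true_eq] at h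
  let G : SimpleGraph (Fin N) :=
    { Adj := fun x y => x ≠ y ∧ a x y = true
      symm := ⟨fun x y hxy => ⟨hxy.1.symm, by rw [← (h x x.2 y y.2).1]; exact hxy.2⟩⟩
      loopless := ⟨fun x hx => hx.1 rfl⟩ }
  have key : ∀ (x y : Fin N) (s : Set (Fin N)), x ≠ y →
      (∀ z : Fin N, z ≠ x → z ≠ y → a x z ≠ a x y → a y z ≠ a x y → z ∈ s) → m ≤ s.ncard := by
    intro x y s hxy hs
    have h1 := (h x x.2 y y.2).2.resolve_left (fun e => hxy (Fin.ext e))
    refine h1.trans ?_
    set L := (List.range N).filter fun z =>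
      z != (x : ℕ) && z != (y : ℕ) && a x z != a x y && a y z != a x y with hL
    have hnd : L.Nodup := List.nodup_range.filter _
    rw [← List.toFinset_card_of_nodup hnd, ← Set.ncard_coe_finset,
      ← Set.ncard_image_of_injective s Fin.val_injective]
    refine Set.ncard_le_ncard (fun z hz => ?_) (Set.toFinite _)
    simp only [hL, List.coe_toFinset, List.mem_filter, List.mem_range, Bool.and_eq_true,
      bne_iff_ne, ne_eq, Set.mem_ofPred_eq] at hz
    obtain ⟨hz0, ⟨⟨hz1, hz2⟩, hz3⟩, hz4⟩ := hz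
    exact ⟨⟨z, hz0⟩, hs ⟨z, hz0⟩ (fun e => hz1 (congrArg Fin.val e))
      (fun e => hz2 (congrArg Fin.val e)) hz3 hz4, rfl⟩
  refine ⟨G, fun x y hxy => key x y _ hxy.1 fun z h1 h2 h3 h4 => ?_,
    fun x y hxy => key x y _ hxy.1 fun z h1 h2 h3 h4 => ?_⟩
  · rw [hxy.2] at h3 h4
    exact ⟨⟨h1.symm, fun h' => h3 h'.2⟩, ⟨h2.symm, fun h' => h4 h'.2⟩⟩
  · have : a x y = false := by
      by_contra h'
      exact hxy.2 ⟨hxy.1, by simpa using h'⟩
    rw [this] at h3 h4
    rw [compl_compl]
    exact ⟨⟨h1.symm, by simpa using h3⟩, ⟨h2.symm, by simpa using h4⟩⟩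

/-- Circulant colouring with the connection set coded by the bits of `s`. -/
def circ (p s x y : ℕ) : Bool := s.testBit ((x + p - y) % p)

def rows22 : List ℕ :=
  [3854448, 3515616, 3885504, 3577728, 4008705, 3823107, 3451911, 3758094, 3322908, 3500088,
    932202, 816852, 585129, 122706, 244389, 487755, 975510, 902445, 757338, 466101, 1023, 1023]

theorem ex5 : Ex 5 1 := ex_of_chk (a := circ 5 18) (by decide +kernel)
theorem ex9 : Ex 9 2 :=
  ex_of_chk (a := fun x y => x / 3 == y / 3 || x % 3 == y % 3) (by decide +kernel)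
theorem ex13 : Ex 13 3 := ex_of_chk (a := circ 13 5658) (by decide +kernel)
theorem ex17 : Ex 17 4 := ex_of_chk (a := circ 17 107286) (by decide +kernel)
theorem ex29 : Ex 29 7 := ex_of_chk (a := circ 29 332473074) (by decide +kernel)
theorem ex22 : Ex 22 5 :=
  ex_of_chk (a := fun x y => (rows22.getD x 0).testBit y) (by decide +kernel)

theorem ex_up {N m N' : ℕ} (h : Ex N m) (hN : 2 ≤ N) (hN' : N ≤ N') : Ex N' m := by
  simpa using ex_blowup h hN 1 N' (by omega)

theorem ex_large {k : ℕ} (hk : 6 ≤ k) : Ex (5 * k - 4) k := by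
  have h9 : ∀ t, Ex (9 * t) (2 * t) := fun t => ex_blowup ex9 (by norm_num) t _ le_rfl
  have h13 : ∀ t, Ex (13 * t) (3 * t) := fun t => ex_blowup ex13 (by norm_num) t _ le_rfl
  have h29 : ∀ t, Ex (29 * t) (7 * t) := fun t => ex_blowup ex29 (by norm_num) t _ le_rfl
  obtain ⟨t, rfl | rfl⟩ := Nat.even_or_odd' k
  · by_cases h : t = 3
    · subst h; exact h13 2
    · exact ex_up (h9 t) (by omega) (by omega)
  · by_cases h : 7 ≤ t
    · have := ex_delete (h9 (t + 1)) 1 (by omega) (by omega)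
      rw [show 2 * (t + 1) - 1 = 2 * t + 1 by omega] at this
      exact ex_up this (by omega) (by omega)
    · have : t = 3 ∨ t = 4 ∨ t = 5 ∨ t = 6 := by omega
      rcases this with rfl | rfl | rfl | rfl
      · exact ex_up ex29 (by omega) (by omega)
      · exact ex_up (h13 3) (by omega) (by omega)
      · exact ex_delete (h13 4) 1 (by omega) (by omega)
      · exact ex_up (ex_delete (h29 2) 1 (by omega) (by omega)) (by omega) (by omega)

theorem ex_zero (N : ℕ) : Ex N 0 := ⟨⊥, fun _ _ _ => Nat.zero_le _, fun _ _ _ => Nat.zero_le _⟩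

theorem arrows_one : Arrows 1 1 := fun G =>
  ⟨⊥, IsTree.of_subsingleton, by simp [ediam_eq_zero_of_subsingleton],
    Or.inl (IsContained.of_le bot_le)⟩

theorem not_arrows_zero : ¬ Arrows 0 1 := fun h => by
  obtain ⟨T, -, -, ⟨⟨f⟩⟩ | ⟨⟨f⟩⟩⟩ := h ⊥
  · exact (f 0).elim0
  · exact (f 0).elim0

theorem classification (k r : ℕ) (hk : 1 ≤ k) (hr1 : 1 ≤ r) (hr4 : r ≤ 4) :
    IsLeast {N | Arrows N (4 * k - r + 1)} (5 * k - r) ↔
      4 * k - r + 1 ∈ ({1, 2, 3, 4, 5, 6, 7, 9, 10, 13, 17} : Finset ℕ) := by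
  by_cases h1 : k = 1 ∧ r = 4
  · obtain ⟨rfl, rfl⟩ := h1
    refine iff_of_true ⟨arrows_one, fun N hN => ?_⟩ (by decide)
    by_contra h
    obtain rfl : N = 0 := by omega
    exact not_arrows_zero hN
  have hn : 2 ≤ 4 * k - r + 1 := by omega
  have hlow : 5 * k - r ∈ lowerBounds {N | Arrows N (4 * k - r + 1)} := by
    intro N hN
    by_contra hlt
    have h2 : Arrows (5 * k - r - 1) (4 * k - r + 1) := arrows_mono (by omega) hN
    revert h2
    rw [imp_false, not_arrows_iff hn]
    have := ex_blowup ex5 (by norm_num) (k - 1) (5 * k - r - 1) (by omega)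
    rwa [show 1 * (k - 1) = 5 * k - r - 1 + 1 - (4 * k - r + 1) by omega] at this
  have hmain : IsLeast {N | Arrows N (4 * k - r + 1)} (5 * k - r) ↔ ¬ Ex (5 * k - r) k := by
    have := not_arrows_iff (N := 5 * k - r) hn
    rw [show 5 * k - r + 1 - (4 * k - r + 1) = k by omega] at this
    rw [← this, not_not]
    exact ⟨fun h => h.1, fun h => ⟨h, hlow⟩⟩
  rw [hmain]
  simp only [Finset.mem_insert, Finset.mem_singleton]
  constructor
  · intro h
    by_contra hc
    apply h
    by_cases h6 : 6 ≤ k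
    · exact ex_up (ex_large h6) (by omega) (by omega)
    · have : k = 2 ∧ r = 1 ∨ k = 3 ∧ r ≤ 2 ∨ k = 4 ∧ r ≤ 3 ∨ k = 5 ∧ r ≤ 3 := by omega
      rcases this with ⟨rfl, rfl⟩ | ⟨rfl, h'⟩ | ⟨rfl, h'⟩ | ⟨rfl, h'⟩
      · exact ex9
      · exact ex_up ex13 (by omega) (by omega)
      · exact ex_up ex17 (by omega) (by omega)
      · exact ex_up ex22 (by omega) (by omega)
  · intro h hex
    by_cases h17 : k = 5 ∧ r = 4
    · obtain ⟨rfl, rfl⟩ := h17
      exact not_ex_21 hex
    · have := ex_bound hex (by omega)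
      omega

end Pool.Agent.MP_f88521_co

end
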